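import Pool.Agent.K3h46.HP.Stm6

/-!
# NC brick ROWT: the partial trace of a permanent with rows (helper37)
-/

set_option autoImplicit false

open Finset

namespace Pool.Agent.K3h37.NC

open Pool.Agent.K3h46.NC

/-- extension by the last letter -/
noncomputable def hat {N : ℕ} (τ : Equiv.Perm (Fin N)) : Equiv.Perm (Fin (N + 1)) :=
  τ.viaFintypeEmbedding Fin.castSuccEmb

theorem hat_cast {N : ℕ} (τ : Equiv.Perm (Fin N)) (i : Fin N) :
    hat τ i.castSucc = (τ i).castSucc :=
  Equiv.Perm.viaFintypeEmbedding_apply_image τ Fin.castSuccEmb i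

theorem hat_last {N : ℕ} (τ : Equiv.Perm (Fin N)) : hat τ (Fin.last N) = Fin.last N := by
  refine Equiv.Perm.viaFintypeEmbedding_apply_notMem_range τ Fin.castSuccEmb ?_
  rintro ⟨i, hi⟩
  exact (Fin.castSucc_lt_last i).ne hi

/-- the exchange with the last letter -/
def sw {N : ℕ} : Option (Fin N) → Equiv.Perm (Fin (N + 1))
  | none => 1
  | some u => Equiv.swap u.castSucc (Fin.last N)

/-- the image of the last letter -/
def im {N : ℕ} : Option (Fin N) → Fin (N + 1)
  | none => Fin.last N
  | some u => u.castSucc

theorem sw_last {N : ℕ} (x : Option (Fin N)) : sw x (im x) = Fin.last N := by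
  cases x with
  | none => rfl
  | some u => exact Equiv.swap_apply_left _ _

theorem im_inj {N : ℕ} : Function.Injective (im (N := N)) := by
  intro x y h
  cases x with
  | none =>
    cases y with
    | none => rfl
    | some v => exact absurd h (Fin.castSucc_lt_last v).ne'
  | some u =>
    cases y with
    | none => exact absurd h (Fin.castSucc_lt_last u).ne
    | some v => exact congrArg some (Fin.castSucc_injective _ h)

theorem bij (N : ℕ) : Function.Bijective
    (fun p : Option (Fin N) × Equiv.Perm (Fin N) => hat p.2 * sw p.1) := by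
  rw [Fintype.bijective_iff_injective_and_card]
  constructor
  · rintro ⟨x, τ⟩ ⟨y, τ'⟩ h
    have h0 : hat τ * sw x = hat τ' * sw y := h
    have h1 : (hat τ * sw x) (im x) = Fin.last N := by
      rw [Equiv.Perm.mul_apply, sw_last, hat_last]
    have h2 : (hat τ * sw x) (im y) = Fin.last N := by
      rw [h0, Equiv.Perm.mul_apply, sw_last, hat_last]
    have hxy : x = y := im_inj ((hat τ * sw x).injective (h1.trans h2.symm))
    subst hxy
    have h3 : hat τ = hat τ' := mul_right_cancel h0
    have h4 : τ = τ' := by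
      ext i : 1
      apply Fin.castSucc_injective
      rw [← hat_cast, ← hat_cast, h3]
    rw [h4]
  · rw [Fintype.card_prod, Fintype.card_option, Fintype.card_perm, Fintype.card_perm,
      Fintype.card_fin, Fintype.card_fin, Nat.factorial_succ]

theorem t_RowT : StmRowT := by
  intro hR M N a
  obtain ⟨-, hR2, hR3, -⟩ := hR M
  have h1 : M.ptr N (M.rowPer a) =
      ∑ p : Option (Fin N) × Equiv.Perm (Fin N), M.ptr N (M.perm (N + 1) (hat p.2 * sw p.1) *
        M.rows a) := by
    unfold TensorPowers.rowPer
    rw [Finset.sum_mul, map_sum]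
    exact (Fintype.sum_bijective _ (bij N) _ _ fun p => rfl).symm
  have hcomm : ∀ R : M.H N, M.emb Fin.castSuccEmb R *
      M.emb (single (Fin.last N)) (a (Fin.last N)) =
      M.emb (single (Fin.last N)) (a (Fin.last N)) * M.emb Fin.castSuccEmb R := fun R =>
    (M.comm (single (Fin.last N)) Fin.castSuccEmb
      (fun i j => (Fin.castSucc_lt_last j).ne') _ _).symm
  have hhat : ∀ τ : Equiv.Perm (Fin N), M.perm (N + 1) (hat τ) =
      M.emb Fin.castSuccEmb (M.perm N τ) := fun τ => (M.emb_perm Fin.castSuccEmb τ).symm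
  have hnone : ∀ τ : Equiv.Perm (Fin N), M.ptr N (M.perm (N + 1) (hat τ * sw none) * M.rows a) =
      M.tr (a (Fin.last N)) • (M.perm N τ * M.rows fun i : Fin N => a i.castSucc) := by
    intro τ
    have h2 : hat τ * sw none = hat τ := mul_one _
    rw [h2, hhat, hR3, ← mul_assoc, ← map_mul, M.ptr_left, M.ptr_last _ _ _ rfl,
      Algebra.algebraMap_eq_smul_one, mul_smul_comm, mul_one]
  have hsome : ∀ (u : Fin N) (τ : Equiv.Perm (Fin N)),
      M.ptr N (M.perm (N + 1) (hat τ * sw (some u)) * M.rows a) =
      M.perm N τ * M.rows (Function.update (fun i : Fin N => a i.castSucc) u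
        (a (Fin.last N) * a u.castSucc)) := by
    intro u τ
    have h2 : (single (Fin.last N)).trans
        (Equiv.swap u.castSucc (Fin.last N)).toEmbedding = (single u).trans Fin.castSuccEmb := by
      ext i
      change ((Equiv.swap u.castSucc (Fin.last N)) (Fin.last N)).val = _
      rw [Equiv.swap_apply_right]
      rfl
    have h3 := M.perm_emb (Equiv.swap u.castSucc (Fin.last N)) (single (Fin.last N))
      (a (Fin.last N))
    rw [h2, ← M.emb_trans] at h3
    have h4 : M.perm (N + 1) (hat τ * sw (some u)) * M.rows a =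
        M.emb Fin.castSuccEmb (M.perm N τ * M.emb (single u) (a (Fin.last N))) *
          (M.perm (N + 1) (Equiv.swap u.castSucc (Fin.last N)) *
            M.emb Fin.castSuccEmb (M.rows fun i : Fin N => a i.castSucc)) := by
      rw [hR3, hcomm, map_mul (M.perm (N + 1)), hhat, map_mul (M.emb Fin.castSuccEmb)]
      change M.emb Fin.castSuccEmb (M.perm N τ) *
        M.perm (N + 1) (Equiv.swap u.castSucc (Fin.last N)) * _ = _
      rw [mul_assoc, ← mul_assoc (M.perm (N + 1) (Equiv.swap u.castSucc (Fin.last N))), h3]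
      simp only [mul_assoc]
    rw [h4, M.ptr_left, M.ptr_right, M.ptr_swap, one_mul, mul_assoc, hR2]
  rw [h1, Fintype.sum_prod_type, Fintype.sum_option]
  congr 1
  · rw [Finset.sum_congr rfl fun τ _ => hnone τ, ← Finset.smul_sum, ← Finset.sum_mul]
    rfl
  · refine Finset.sum_congr rfl fun u _ => ?_
    rw [Finset.sum_congr rfl fun τ _ => hsome u τ, ← Finset.sum_mul]
    rfl

end Pool.Agent.K3h37.NC
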